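import Pool.Agent.H174.GP.StG

/-!
# Deterministic comparison (helper344, for the project GP of helper174)
-/

set_option autoImplicit false

open MeasureTheory ProbabilityTheory Finset Filter Topology

namespace Pool.Agent.H344.GP174.wdet

open Pool.Agent.H174.GP

theorem step_le (j : ℕ) (hj : 1 ≤ j) :
    1 / ((j : ℝ) * ((j : ℝ) + 1)) * (j : ℝ) ^ (1 / 4 : ℝ) ≤
      4 * ((j : ℝ) ^ (1 / 4 : ℝ) / j - ((j + 1 : ℕ) : ℝ) ^ (1 / 4 : ℝ) / ((j + 1 : ℕ) : ℝ)) := by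
  have hj1 : (1 : ℝ) ≤ j := by exact_mod_cast hj
  have hj0 : (0 : ℝ) < j := by linarith
  have hp : 0 ≤ (j : ℝ) ^ (1 / 4 : ℝ) := Real.rpow_nonneg hj0.le _
  have hq : ((j + 1 : ℕ) : ℝ) ^ (1 / 4 : ℝ) ≤ (j : ℝ) ^ (1 / 4 : ℝ) * (1 + 1 / (4 * j)) := by
    have e1 : ((j + 1 : ℕ) : ℝ) = (j : ℝ) * (1 + 1 / j) := by
      push_cast
      field_simp
    rw [e1, Real.mul_rpow hj0.le (by positivity)]
    refine mul_le_mul_of_nonneg_left ?_ hp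
    have h0 : (0 : ℝ) ≤ 1 / j := by positivity
    have h1 := rpow_one_add_le_one_add_mul_self (s := 1 / (j : ℝ)) (by linarith)
      (p := 1 / 4) (by norm_num) (by norm_num)
    refine h1.trans (le_of_eq ?_)
    field_simp
  obtain ⟨p, hpp⟩ : ∃ p : ℝ, p = (j : ℝ) ^ (1 / 4 : ℝ) := ⟨_, rfl⟩
  obtain ⟨q, hqq⟩ : ∃ q : ℝ, q = ((j + 1 : ℕ) : ℝ) ^ (1 / 4 : ℝ) := ⟨_, rfl⟩
  rw [← hpp] at hp hq ⊢
  rw [← hqq] at hq ⊢
  have hc : ((j + 1 : ℕ) : ℝ) = (j : ℝ) + 1 := by push_cast; rfl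
  rw [hc]
  have h2 : q * (4 * j) ≤ p * (4 * j + 1) := by
    have h3 := mul_le_mul_of_nonneg_right hq (by positivity : (0 : ℝ) ≤ 4 * j)
    refine h3.trans (le_of_eq ?_)
    field_simp
  have e2 : 4 * (p / j - q / ((j : ℝ) + 1)) =
      (4 * p * (j + 1) - q * (4 * j)) / ((j : ℝ) * ((j : ℝ) + 1)) := by
    field_simp
  rw [e2, one_div, inv_mul_eq_div]
  refine div_le_div_of_nonneg_right ?_ (by positivity)
  linarith

theorem sum_le (x : ℕ) (hx : 1 ≤ x) (n : ℕ) (hn : x ≤ n) :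
    ∑ j ∈ Finset.Ico x n, (x : ℝ) / ((j : ℝ) * ((j : ℝ) + 1)) * (j : ℝ) ^ (1 / 4 : ℝ) ≤
      4 * x * ((x : ℝ) ^ (1 / 4 : ℝ) / x - (n : ℝ) ^ (1 / 4 : ℝ) / n) := by
  induction n, hn using Nat.le_induction with
  | base =>
    rw [Finset.Ico_self, Finset.sum_empty, sub_self, mul_zero]
  | succ m hm ih =>
    rw [Finset.sum_Ico_succ_top hm]
    have h1 := step_le m (hx.trans hm)
    have h2 := mul_le_mul_of_nonneg_left h1 (Nat.cast_nonneg x : (0 : ℝ) ≤ x)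
    have e1 : (x : ℝ) * (1 / ((m : ℝ) * ((m : ℝ) + 1)) * (m : ℝ) ^ (1 / 4 : ℝ)) =
        (x : ℝ) / ((m : ℝ) * ((m : ℝ) + 1)) * (m : ℝ) ^ (1 / 4 : ℝ) := by
      ring
    rw [e1] at h2
    refine (add_le_add ih h2).trans (le_of_eq ?_)
    ring

theorem gp_wdet (h1 : S_abel) : Pool.Agent.H174.GP.S_wdet := by
  intro n x0 z ω' D hx0 hD h x hx
  rw [Finset.mem_Icc] at hx
  have hx1 : 1 ≤ x := hx0.trans hx.1
  have hn1 : 1 ≤ n := hx1.trans hx.2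
  have hxR : (0 : ℝ) < x := by exact_mod_cast hx1
  have hnR : (0 : ℝ) < n := by exact_mod_cast hn1
  rw [h1 z n x hx1 hx.2, h1 ω' n x hx1 hx.2]
  have e1 : Real.sqrt 2 * ((∑ j ∈ Finset.Ico x n, ((x : ℝ) / ((j : ℝ) * ((j : ℝ) + 1))) * S z j) +
      ((x : ℝ) / n) * S z n) - ((∑ j ∈ Finset.Ico x n, ((x : ℝ) / ((j : ℝ) * ((j : ℝ) + 1))) *
        S ω' j) + ((x : ℝ) / n) * S ω' n) =
      (∑ j ∈ Finset.Ico x n, ((x : ℝ) / ((j : ℝ) * ((j : ℝ) + 1))) *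
        (Real.sqrt 2 * S z j - S ω' j)) + ((x : ℝ) / n) * (Real.sqrt 2 * S z n - S ω' n) := by
    have e2 : (∑ j ∈ Finset.Ico x n, ((x : ℝ) / ((j : ℝ) * ((j : ℝ) + 1))) *
        (Real.sqrt 2 * S z j - S ω' j)) = Real.sqrt 2 *
        (∑ j ∈ Finset.Ico x n, ((x : ℝ) / ((j : ℝ) * ((j : ℝ) + 1))) * S z j) -
        (∑ j ∈ Finset.Ico x n, ((x : ℝ) / ((j : ℝ) * ((j : ℝ) + 1))) * S ω' j) := by
      rw [Finset.mul_sum, ← Finset.sum_sub_distrib]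
      exact Finset.sum_congr rfl fun j _ => by ring
    rw [e2]
    ring
  rw [e1]
  have b1 : |∑ j ∈ Finset.Ico x n, ((x : ℝ) / ((j : ℝ) * ((j : ℝ) + 1))) *
      (Real.sqrt 2 * S z j - S ω' j)| ≤
      D * (4 * x * ((x : ℝ) ^ (1 / 4 : ℝ) / x - (n : ℝ) ^ (1 / 4 : ℝ) / n)) := by
    refine (Finset.abs_sum_le_sum_abs _ _).trans ?_
    refine le_trans ?_ (mul_le_mul_of_nonneg_left (sum_le x hx1 n hx.2) hD.le)
    rw [Finset.mul_sum]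
    refine Finset.sum_le_sum fun j hj => ?_
    rw [Finset.mem_Ico] at hj
    have hw : 0 ≤ (x : ℝ) / ((j : ℝ) * ((j : ℝ) + 1)) := by positivity
    have h2 := h j (Finset.mem_Icc.2 ⟨hx.1.trans hj.1, hj.2.le⟩)
    rw [abs_mul, abs_of_nonneg hw]
    refine (mul_le_mul_of_nonneg_left h2 hw).trans (le_of_eq ?_)
    ring
  have b2 : |((x : ℝ) / n) * (Real.sqrt 2 * S z n - S ω' n)| ≤
      D * (x * ((n : ℝ) ^ (1 / 4 : ℝ) / n)) := by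
    have hw : 0 ≤ (x : ℝ) / n := by positivity
    have h2 := h n (Finset.mem_Icc.2 ⟨hx.1.trans hx.2, le_refl n⟩)
    rw [abs_mul, abs_of_nonneg hw]
    refine (mul_le_mul_of_nonneg_left h2 hw).trans (le_of_eq ?_)
    ring
  refine (abs_add_le _ _).trans ((add_le_add b1 b2).trans ?_)
  have hq : 0 ≤ (n : ℝ) ^ (1 / 4 : ℝ) / n := by positivity
  have e3 : (x : ℝ) * ((x : ℝ) ^ (1 / 4 : ℝ) / x) = (x : ℝ) ^ (1 / 4 : ℝ) := by
    field_simp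
  have e4 : D * (4 * x * ((x : ℝ) ^ (1 / 4 : ℝ) / x - (n : ℝ) ^ (1 / 4 : ℝ) / n)) +
      D * (x * ((n : ℝ) ^ (1 / 4 : ℝ) / n)) =
      4 * D * ((x : ℝ) * ((x : ℝ) ^ (1 / 4 : ℝ) / x)) -
        3 * (D * (x * ((n : ℝ) ^ (1 / 4 : ℝ) / n))) := by
    ring
  rw [e4, e3]
  have : 0 ≤ D * (x * ((n : ℝ) ^ (1 / 4 : ℝ) / n)) := by positivity
  linarith

end Pool.Agent.H344.GP174.wdet
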